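import Pool.Agent.Q258.MT.Rot

set_option autoImplicit false

/-!
The symmetry of the values of the monotone triangle polynomial at `(i, 2, ..., n + 1, 1, ..., n)`.
-/

namespace Pool.Agent.Results.MP_16be1b_co.RotationSymmetry

open Pool.Agent.Q258.MT

/-- The sequence `(i, 2, 3, ..., n + 1, 1, 2, ..., n)` of length `2 n + 1`. -/
def W (n : ℕ) (i : ℤ) : Fin (2 * n + 1) → ℤ :=
  fun j => if (j : ℕ) = 0 then i else if (j : ℕ) ≤ n then (j : ℕ) + 1 else (j : ℕ) - n

/-- the list `2, ..., n + 1, 1, ..., n` -/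
def w (n : ℕ) : List ℤ :=
  List.ofFn fun j : Fin (2 * n) => if (j : ℕ) < n then ((j : ℕ) : ℤ) + 2 else (j : ℕ) - n + 1

theorem ofFn_W (n : ℕ) (i : ℤ) : List.ofFn (W n i) = i :: w n := by
  rw [List.ofFn_succ, w]
  congr 1
  congr 1
  funext j
  simp only [W, Fin.val_succ]
  rw [if_neg (by omega)]
  split_ifs with h1 h2 h2
  · push_cast; ring
  · omega
  · omega
  · push_cast; ring

theorem w_symm (n : ℕ) : ((w n).map (fun x => - x)).reverse.map (· + ((n : ℤ) + 2)) = w n := by
  apply List.ext_getElem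
  · simp
  · intro j h1 h2
    simp only [w, List.length_map, List.length_reverse, List.length_ofFn] at h1
    simp only [w, List.getElem_map, List.getElem_reverse, List.getElem_ofFn, List.length_map,
      List.length_ofFn]
    split_ifs <;> omega

theorem symm (n : ℕ) (i : ℤ) : al (2 * n + 1) (i :: w n) = al (2 * n + 1) ((3 * n + 3 - i) :: w n) := by
  have hl : (w n).length = 2 * n := by simp [w]
  rw [al_rot, hl]
  have h1 : ((-1 : ℚ)) ^ (2 * n) = 1 := by rw [pow_mul]; norm_num
  rw [h1, one_mul, ← al_reflect (2 * n) _ (by simp [hl]), ← al_map_int _ _ ((n : ℤ) + 2)]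
  congr 1
  rw [List.map_append, List.reverse_append, List.map_append, w_symm]
  simp only [List.map_cons, List.map_nil, List.reverse_cons, List.reverse_nil, List.nil_append,
    List.cons_append]
  congr 1
  push_cast
  ring

/-- **The symmetry `W_{n,i} = W_{n,3n+3-i}`.** For every `n` there is exactly one monotone triangle
polynomial in `n + 1` variables. For the polynomial `p` in `2 n + 1` variables,
`W_{n,i} = p (i, 2, 3, ..., n + 1, 1, 2, ..., n)` satisfies `W_{n,i} = W_{n,3n+3-i}` for all integers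
`i`, in particular for `1 ≤ i ≤ 3 n + 2`. -/
theorem result :
    (∀ n : ℕ, ∃! p : MvPolynomial (Fin (n + 1)) ℚ, IsMTPoly n p) ∧
    ∀ (n : ℕ) (p : MvPolynomial (Fin (2 * n + 1)) ℚ), IsMTPoly (2 * n) p → ∀ i : ℤ,
      MvPolynomial.eval (fun j => (W n i j : ℚ)) p =
        MvPolynomial.eval (fun j => (W n (3 * n + 3 - i) j : ℚ)) p := by
  refine ⟨existsUnique_mtPoly, fun n p hp i => ?_⟩
  rw [hp.eval_eq, hp.eval_eq, ofFn_W, ofFn_W]
  exact symm n i

end Pool.Agent.Results.MP_16be1b_co.RotationSymmetry
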